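import Pool.Agent.LKT.Stmts
import Pool.Agent.Helper68_LKU.Chk

/-!
# Squad LKU: links do not meet, in the degenerate form used by the sign certificate
-/

set_option autoImplicit false

namespace Pool.Agent.LKU.H68

open Pool.Agent.LCK Pool.Agent.LKT

/-- Two finite links. -/
theorem meet_ff (A B C D : ℝ) (a b c d : E3) (h0 : D - C = A - B)
    (hv : D • a - C • b = A • d - B • c) (hp : Pat A B C D)
    (hd : Disjoint (segment ℝ a b) (segment ℝ c d)) : False := by
  obtain ⟨h1, h2, h3⟩ := hp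
  by_cases hs : D - C = 0
  · have e1 : D = C := by linarith
    have e2 : A = B := by linarith
    rw [e1] at h2
    rw [e2] at h1
    have c0 : C = 0 := by nlinarith
    have b0 : B = 0 := by nlinarith
    exact h3 ⟨by rw [e2, b0], b0, c0, by rw [e1, c0]⟩
  · set s := D - C with hsd
    have hs2 : 0 < s * s := mul_self_pos.2 hs
    have key : ∀ t : ℝ, 0 ≤ t * s → 0 ≤ t / s := by
      intro t ht
      have : t / s = (t * s) / (s * s) := by field_simp
      rw [this]
      exact div_nonneg ht hs2.le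
    have n1 : 0 ≤ D / s := key _ (by rw [hsd]; nlinarith [sq_nonneg D])
    have n2 : 0 ≤ (-C) / s := key _ (by rw [hsd]; nlinarith [sq_nonneg C])
    have n3 : 0 ≤ A / s := key _ (by rw [h0]; nlinarith [sq_nonneg A])
    have n4 : 0 ≤ (-B) / s := key _ (by rw [h0]; nlinarith [sq_nonneg B])
    have m1 : (D / s) • a + ((-C) / s) • b ∈ segment ℝ a b :=
      ⟨D / s, (-C) / s, n1, n2, by rw [← add_div]; rw [← sub_eq_add_neg, ← hsd]; exact div_self hs,
        rfl⟩
    have m2 : (D / s) • a + ((-C) / s) • b ∈ segment ℝ c d := by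
      refine ⟨(-B) / s, A / s, n4, n3, ?_, ?_⟩
      · rw [← add_div, neg_add_eq_sub, ← h0]; exact div_self hs
      · have e : ∀ (p q : ℝ) (y z : E3), (p / s) • y + (q / s) • z = s⁻¹ • (p • y + q • z) := by
          intro p q y z
          rw [smul_add, smul_smul, smul_smul, div_eq_inv_mul, div_eq_inv_mul]
        rw [e, e]
        congr 1
        rw [neg_smul, neg_smul, ← sub_eq_add_neg, hv]
        abel
    exact Set.disjoint_left.mp hd m1 m2

/-- An end link and a finite link. -/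
theorem meet_ray (s p m n : ℝ) (o dir c d : E3) (hp : p = m + n)
    (hv : s • dir + p • o = m • c + n • d) (h1 : 0 ≤ s * p) (h2 : 0 ≤ m * n)
    (h3 : ¬ (s = 0 ∧ p = 0 ∧ m = 0 ∧ n = 0)) (hc : ‖c - o‖ < ‖dir‖) (hd : ‖d - o‖ < ‖dir‖) :
    ∃ q, q ∈ segment ℝ (o + dir) o ∧ q ∈ segment ℝ c d := by
  have hdir : 0 < ‖dir‖ := lt_of_le_of_lt (norm_nonneg _) hc
  by_cases hp0 : p = 0
  · exfalso
    have e1 : m = -n := by linarith
    have n0 : n = 0 := by rw [e1] at h2; nlinarith
    have m0 : m = 0 := by rw [e1, n0, neg_zero]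
    rw [hp0, n0, m0] at hv
    simp only [zero_smul, add_zero] at hv
    have : s = 0 := by
      rcases smul_eq_zero.1 hv with h | h
      · exact h
      · rw [h, norm_zero] at hdir; exact absurd hdir (lt_irrefl _)
    exact h3 ⟨this, hp0, m0, n0⟩
  · have hp2 : 0 < p * p := mul_self_pos.2 hp0
    have key : ∀ t : ℝ, 0 ≤ t * p → 0 ≤ t / p := by
      intro t ht
      have : t / p = (t * p) / (p * p) := by field_simp
      rw [this]
      exact div_nonneg ht hp2.le
    have n1 : 0 ≤ s / p := key _ h1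
    have n2 : 0 ≤ m / p := key _ (by rw [hp]; nlinarith [sq_nonneg m])
    have n3 : 0 ≤ n / p := key _ (by rw [hp]; nlinarith [sq_nonneg n])
    have hsum : m / p + n / p = 1 := by rw [← add_div, ← hp]; exact div_self hp0
    have eq1 : o + (s / p) • dir = (m / p) • c + (n / p) • d := by
      have e : (m / p) • c + (n / p) • d = p⁻¹ • (m • c + n • d) := by
        rw [smul_add, smul_smul, smul_smul, div_eq_inv_mul, div_eq_inv_mul]
      rw [e, ← hv, smul_add, smul_smul, smul_smul, inv_mul_cancel₀ hp0, one_smul, div_eq_inv_mul,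
        add_comm]
    have eq2 : (s / p) • dir = (m / p) • (c - o) + (n / p) • (d - o) := by
      have : (s / p) • dir = (m / p) • c + (n / p) • d - (m / p + n / p) • o := by
        rw [hsum, one_smul, ← eq1]; abel
      rw [this, add_smul, smul_sub, smul_sub]; abel
    have hlt : s / p * ‖dir‖ < 1 * ‖dir‖ := by
      calc s / p * ‖dir‖ = ‖(s / p) • dir‖ := by rw [norm_smul, Real.norm_of_nonneg n1]
        _ = ‖(m / p) • (c - o) + (n / p) • (d - o)‖ := by rw [eq2]
        _ ≤ ‖(m / p) • (c - o)‖ + ‖(n / p) • (d - o)‖ := norm_add_le _ _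
        _ = m / p * ‖c - o‖ + n / p * ‖d - o‖ := by
            rw [norm_smul, norm_smul, Real.norm_of_nonneg n2, Real.norm_of_nonneg n3]
        _ < 1 * ‖dir‖ := by
            rw [← hsum, add_mul]
            rcases n2.lt_or_eq with h | h
            · exact add_lt_add_of_lt_of_le (mul_lt_mul_of_pos_left hc h)
                (mul_le_mul_of_nonneg_left hd.le n3)
            · have hn1 : n / p = 1 := by rw [← h] at hsum; linarith
              rw [← h, hn1]
              simpa using hd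
    have ht : s / p < 1 := lt_of_mul_lt_mul_right hlt hdir.le
    refine ⟨o + (s / p) • dir, ⟨s / p, 1 - s / p, n1, by linarith, by ring, ?_⟩,
      ⟨m / p, n / p, n2, n3, hsum, eq1.symm⟩⟩
    rw [smul_add, sub_smul, one_smul]; abel

/-- The relation of four dependent points. -/
theorem rel4 (a b c d e : Fin 4 → ℝ) (h : det4 a b c d = 0) (i : Fin 4) :
    det4 c d b e * a i - det4 c d a e * b i = det4 a b c e * d i - det4 a b d e * c i := by
  have h1 := det4_lin a b c d e i
  have e1 : det4 b c d e = det4 c d b e := by unfold det4; ring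
  have e2 : det4 a c d e = det4 c d a e := by unfold det4; ring
  rw [h, e1, e2] at h1
  linarith

/-- The eight points as a sequence. -/
noncomputable def pt (x : Fin 8 → E3) (k : ℕ) : Fin 4 → ℝ := if h : k < 8 then hom x ⟨k, h⟩ else 0

theorem d4_det4 (p q r s : Fin 4 → ℝ) : d4 p q r s = det4 p q r s := by
  unfold d4 det4
  rw [Matrix.det_succ_row_zero]
  simp [Fin.sum_univ_four, Matrix.det_fin_three, Fin.succAbove]
  ring

/-- Vector form of `rel4`. -/
theorem relv (x : Fin 8 → E3) (a b c d : Fin 8) (e : Fin 4 → ℝ)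
    (h : det4 (hom x a) (hom x b) (hom x c) (hom x d) = 0) :
    det4 (hom x c) (hom x d) (hom x b) e • x a - det4 (hom x c) (hom x d) (hom x a) e • x b
      = det4 (hom x a) (hom x b) (hom x c) e • x d
        - det4 (hom x a) (hom x b) (hom x d) e • x c := by
  ext i
  fin_cases i
  · have := rel4 _ _ _ _ e h 1
    simpa [hom] using this
  · have := rel4 _ _ _ _ e h 2
    simpa [hom] using this
  · have := rel4 _ _ _ _ e h 3
    simpa [hom] using this

/-- Non meeting of two finite links, in bracket form. -/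
theorem nm_ff (x : Fin 8 → E3) (a b c d : Fin 8) (e : Fin 4 → ℝ)
    (ha : hom x a 0 = 1) (hb : hom x b 0 = 1) (hc : hom x c 0 = 1) (hd : hom x d 0 = 1)
    (h : det4 (hom x a) (hom x b) (hom x c) (hom x d) = 0)
    (hdis : Disjoint (segment ℝ (x a) (x b)) (segment ℝ (x c) (x d))) :
    ¬ Pat (det4 (hom x a) (hom x b) (hom x c) e) (det4 (hom x a) (hom x b) (hom x d) e)
      (det4 (hom x c) (hom x d) (hom x a) e) (det4 (hom x c) (hom x d) (hom x b) e) := by
  intro hp
  have h0 := rel4 _ _ _ _ e h 0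
  rw [ha, hb, hc, hd] at h0
  exact meet_ff _ _ _ _ _ _ _ _ (by linarith) (relv x a b c d e h) hp hdis

/-- Non meeting of the first end link (points 0 and 1) and a finite link. -/
theorem nm_rf (x : Fin 8 → E3) (c d : Fin 8) (e : Fin 4 → ℝ)
    (hc : hom x c 0 = 1) (hd : hom x d 0 = 1)
    (h : det4 (hom x 0) (hom x 1) (hom x c) (hom x d) = 0)
    (h1 : ‖x c - x 1‖ < ‖x 0‖) (h2 : ‖x d - x 1‖ < ‖x 0‖)
    (hdis : Disjoint (segment ℝ (x 1 + x 0) (x 1)) (segment ℝ (x c) (x d))) :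
    ¬ Pat (det4 (hom x 0) (hom x 1) (hom x c) e) (det4 (hom x 0) (hom x 1) (hom x d) e)
      (det4 (hom x c) (hom x d) (hom x 0) e) (det4 (hom x c) (hom x d) (hom x 1) e) := by
  intro hp
  have h0 := rel4 _ _ _ _ e h 0
  rw [hc, hd] at h0
  have g0 : hom x 0 0 = 0 := by simp [hom]
  have g1 : hom x 1 0 = 1 := by simp [hom]
  rw [g0, g1] at h0
  have hv := relv x 0 1 c d e h
  obtain ⟨p1, p2, p3⟩ := hp
  set A := det4 (hom x 0) (hom x 1) (hom x c) e
  set B := det4 (hom x 0) (hom x 1) (hom x d) e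
  set C := det4 (hom x c) (hom x d) (hom x 0) e
  set D' := det4 (hom x c) (hom x d) (hom x 1) e
  obtain ⟨q, q1, q2⟩ := meet_ray D' (-C) (-B) A (x 1) (x 0) (x c) (x d) (by linarith)
    (by rw [neg_smul, neg_smul, ← sub_eq_add_neg, hv]; abel) (by nlinarith) (by nlinarith)
    (by
      rintro ⟨r1, r2, r3, r4⟩
      exact p3 ⟨r4, by linarith, by linarith, r1⟩) h1 h2
  exact Set.disjoint_left.mp hdis q1 q2

/-- Non meeting of a finite link and the last end link (points 6 and 7). -/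
theorem nm_fr (x : Fin 8 → E3) (a b : Fin 8) (e : Fin 4 → ℝ)
    (ha : hom x a 0 = 1) (hb : hom x b 0 = 1)
    (h : det4 (hom x a) (hom x b) (hom x 6) (hom x 7) = 0)
    (h1 : ‖x a - x 6‖ < ‖x 7‖) (h2 : ‖x b - x 6‖ < ‖x 7‖)
    (hdis : Disjoint (segment ℝ (x a) (x b)) (segment ℝ (x 6) (x 6 + x 7))) :
    ¬ Pat (det4 (hom x a) (hom x b) (hom x 6) e) (det4 (hom x a) (hom x b) (hom x 7) e)
      (det4 (hom x 6) (hom x 7) (hom x a) e) (det4 (hom x 6) (hom x 7) (hom x b) e) := by
  intro hp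
  have h0 := rel4 _ _ _ _ e h 0
  rw [ha, hb] at h0
  have g0 : hom x 6 0 = 1 := by simp [hom]
  have g1 : hom x 7 0 = 0 := by simp [hom]
  rw [g0, g1] at h0
  have hv := relv x a b 6 7 e h
  obtain ⟨p1, p2, p3⟩ := hp
  set A := det4 (hom x a) (hom x b) (hom x 6) e
  set B := det4 (hom x a) (hom x b) (hom x 7) e
  set C := det4 (hom x 6) (hom x 7) (hom x a) e
  set D' := det4 (hom x 6) (hom x 7) (hom x b) e
  obtain ⟨q, q1, q2⟩ := meet_ray A (-B) D' (-C) (x 6) (x 7) (x a) (x b) (by linarith)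
    (by rw [neg_smul, neg_smul, ← sub_eq_add_neg, ← sub_eq_add_neg, hv]) (by nlinarith)
    (by nlinarith)
    (by
      rintro ⟨r1, r2, r3, r4⟩
      exact p3 ⟨r1, by linarith, by linarith, r3⟩) h1 h2
  rw [segment_symm] at q1
  exact Set.disjoint_left.mp hdis q2 q1

/-- The closure statement for a configuration with disjoint links. -/
theorem core (x : Fin 8 → E3)
    (hdis : ∀ i j : Fin 7, (i : ℕ) + 2 ≤ j →
      Disjoint (segment ℝ (vv x i.castSucc) (vv x i.succ))
        (segment ℝ (vv x j.castSucc) (vv x j.succ)))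
    (h1 : ∀ j : Fin 8, 2 ≤ j → j ≤ 5 → ‖x j - x 1‖ < ‖x 0‖)
    (h6 : ∀ j : Fin 8, 1 ≤ j → j ≤ 5 → ‖x j - x 6‖ < ‖x 7‖)
    (hw : ∀ t ∈ RL, 0 ≤ sg t.2.2.2.2 * Br (pt x) t.1 t.2.1 t.2.2.1 t.2.2.2.1)
    (hnz : ∃ a b c d, a < b ∧ b < c ∧ c < d ∧ d ≤ 7 ∧ Br (pt x) a b c d ≠ 0) :
    ∀ t ∈ RL, (t.1, t.2.1, t.2.2.1, t.2.2.2.1) ≠ (0, 1, 6, 7) →
        0 < sg t.2.2.2.2 * Br (pt x) t.1 t.2.1 t.2.2.1 t.2.2.2.1 := by
  have hpt : ∀ (k : ℕ) (h : k < 8), pt x k = hom x ⟨k, h⟩ := fun k h => by simp [pt, h]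
  rcases cert1 (pt x) (by simp [pt, hom]) (by simp [pt, hom])
    (fun i hi1 hi6 => by
      have hk : i < 8 := by omega
      rw [hpt i hk]
      have e0 : (⟨i, hk⟩ : Fin 8) ≠ 0 := by
        intro h; have := congrArg Fin.val h; simp at this; omega
      have e7 : (⟨i, hk⟩ : Fin 8) ≠ 7 := by
        intro h; have := congrArg Fin.val h; simp at this; omega
      simp [hom, e0, e7]) hw
    (fun k l e hkl _ hz => by
      simp only [PL, List.mem_cons, Prod.mk.injEq, List.not_mem_nil, or_false] at hkl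
      have f1 : hom x 1 0 = 1 := by simp [hom]
      have f2 : hom x 2 0 = 1 := by simp [hom]
      have f3 : hom x 3 0 = 1 := by simp [hom]
      have f4 : hom x 4 0 = 1 := by simp [hom]
      have f5 : hom x 5 0 = 1 := by simp [hom]
      have f6 : hom x 6 0 = 1 := by simp [hom]
      rcases hkl with ⟨rfl, rfl⟩ | ⟨rfl, rfl⟩ | ⟨rfl, rfl⟩ | ⟨rfl, rfl⟩ | ⟨rfl, rfl⟩ | ⟨rfl, rfl⟩ |
        ⟨rfl, rfl⟩ | ⟨rfl, rfl⟩ | ⟨rfl, rfl⟩ | ⟨rfl, rfl⟩ | ⟨rfl, rfl⟩ | ⟨rfl, rfl⟩ | ⟨rfl, rfl⟩
      · exact nm_rf x 2 3 _ f2 f3 hz (h1 2 (by decide) (by decide)) (h1 3 (by decide) (by decide))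
          (hdis 0 2 (by decide))
      · exact nm_rf x 3 4 _ f3 f4 hz (h1 3 (by decide) (by decide)) (h1 4 (by decide) (by decide))
          (hdis 0 3 (by decide))
      · exact nm_rf x 4 5 _ f4 f5 hz (h1 4 (by decide) (by decide)) (h1 5 (by decide) (by decide))
          (hdis 0 4 (by decide))
      · exact nm_ff x 1 2 3 4 _ f1 f2 f3 f4 hz (hdis 1 3 (by decide))
      · exact nm_ff x 1 2 4 5 _ f1 f2 f4 f5 hz (hdis 1 4 (by decide))
      · exact nm_ff x 1 2 5 6 _ f1 f2 f5 f6 hz (hdis 1 5 (by decide))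
      · exact nm_fr x 1 2 _ f1 f2 hz (h6 1 (by decide) (by decide)) (h6 2 (by decide) (by decide))
          (hdis 1 6 (by decide))
      · exact nm_ff x 2 3 4 5 _ f2 f3 f4 f5 hz (hdis 2 4 (by decide))
      · exact nm_ff x 2 3 5 6 _ f2 f3 f5 f6 hz (hdis 2 5 (by decide))
      · exact nm_fr x 2 3 _ f2 f3 hz (h6 2 (by decide) (by decide)) (h6 3 (by decide) (by decide))
          (hdis 2 6 (by decide))
      · exact nm_ff x 3 4 5 6 _ f3 f4 f5 f6 hz (hdis 3 5 (by decide))
      · exact nm_fr x 3 4 _ f3 f4 hz (h6 3 (by decide) (by decide)) (h6 4 (by decide) (by decide))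
          (hdis 3 6 (by decide))
      · exact nm_fr x 4 5 _ f4 f5 hz (h6 4 (by decide) (by decide)) (h6 5 (by decide) (by decide))
          (hdis 4 6 (by decide))) with h | h
  · obtain ⟨a, b, c, d, k1, k2, k3, k4, hne⟩ := hnz
    exact absurd (h a b c d k1 k2 k3 k4) hne
  · exact h

end Pool.Agent.LKU.H68
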