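import Pool.Agent.Helper68_LKU.WNB

/-!
# Squad LKU, rows WLI and WLO: all walls of two links except 0167
-/

set_option autoImplicit false

namespace Pool.Agent.LKU.H68

open Pool.Agent.LCK Pool.Agent.LKT Pool.Agent.LKU

/-- All walls except that of the two end links. -/
theorem wall (x : Fin 8 → E3) (hx : x ∈ Om2) (j : ℕ) (hj : j < 53) (h11 : j ≠ 11)
    (hpos : ∀ i < 53, i ≠ j → 0 < F2 i x) : F2 j x ≠ 0 := by
  intro hz
  obtain ⟨hdis, h1, h6⟩ := hx
  have hlen : RL.length = 53 := by decide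
  have hw : ∀ t ∈ RL, 0 ≤ sg t.2.2.2.2 * Br (pt x) t.1 t.2.1 t.2.2.1 t.2.2.2.1 := by
    intro t ht
    obtain ⟨i, hi⟩ := List.mem_iff_getElem?.1 ht
    have hi53 : i < 53 := by
      have := (List.getElem?_eq_some_iff.1 hi).1
      omega
    obtain ⟨u, hu, hF⟩ := F2_eq x i hi53
    rw [hi] at hu
    obtain rfl := Option.some.inj hu
    rw [← hF]
    by_cases hij : i = j
    · rw [hij, hz]
    · exact (hpos i hi53 hij).le
  have hnz : ∃ a b c d, a < b ∧ b < c ∧ c < d ∧ d ≤ 7 ∧ Br (pt x) a b c d ≠ 0 := by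
    obtain ⟨u, hu, hF⟩ := F2_eq x 11 (by norm_num)
    have hu' : u = (0, 1, 6, 7, true) := by
      have := hu.symm.trans (show RL[11]? = some (0, 1, 6, 7, true) from rfl)
      exact Option.some.inj this
    subst hu'
    refine ⟨0, 1, 6, 7, by norm_num, by norm_num, by norm_num, by norm_num, ?_⟩
    intro h0
    have := hpos 11 (by norm_num) (fun h => h11 h.symm)
    rw [hF] at this
    simp only at this
    rw [h0, mul_zero] at this
    exact lt_irrefl _ this
  have hall := core x hdis h1 h6 hw hnz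
  obtain ⟨u, hu, hF⟩ := F2_eq x j hj
  have hne : (u.1, u.2.1, u.2.2.1, u.2.2.2.1) ≠ (0, 1, 6, 7) := by
    have key : ∀ i < 53, i ≠ 11 → ∀ t, RL[i]? = some t →
        (t.1, t.2.1, t.2.2.1, t.2.2.2.1) ≠ (0, 1, 6, 7) := by
      intro i hi hi11 t ht
      have : ∀ i < 53, i ≠ 11 → (RL[i]?.map fun t => decide ((t.1, t.2.1, t.2.2.1, t.2.2.2.1) ≠
          (0, 1, 6, 7))) = some true := by decide
      have h := this i hi hi11
      rw [ht] at h
      exact of_decide_eq_true (Option.some.inj h)
    exact key j hj h11 u hu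
  have := hall u (List.mem_of_getElem? hu) hne
  rw [← hF, hz] at this
  exact lt_irrefl _ this

theorem wli : WliStmt := by
  intro x hx j hj hpos
  rcases hj with rfl | rfl | rfl | rfl | rfl <;>
    exact wall x hx _ (by norm_num) (by norm_num) hpos

theorem wlo : WloStmt := by
  intro x hx j hj hpos
  rcases hj with rfl | rfl | rfl | rfl <;>
    exact wall x hx _ (by norm_num) (by norm_num) hpos

end Pool.Agent.LKU.H68
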