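import Pool.Agent.LKU.Stmts
import Pool.Agent.Helper68_LKU.Core

/-!
# Squad LKU, row WNB: walls which do not exist
-/

set_option autoImplicit false

namespace Pool.Agent.LKU.H68

open Pool.Agent.LCK Pool.Agent.LKT Pool.Agent.LKU

/-- Certificates for the 43 walls which do not exist. -/
def CT : List (ℕ × Tr) :=
  [(0, (.E 0 1 2 3 0 (.G 0 1 2 3 6 7)
  (.E 0 1 2 4 2 (.G 0 1 2 4 6 7)
  (.E 1 2 3 7 2 (.G 1 2 0 3 4 7)
  (.X (.G 1 2 0 3 6 7)))))),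
    (1, (.E 0 1 2 3 1 (.G 0 1 2 3 6 7)
  (.E 0 1 2 3 2 (.G 0 1 2 3 6 7)
  (.E 0 1 2 4 0 (.G 0 1 2 4 6 7)
  (.E 0 1 2 4 1 (.G 0 1 2 4 6 7)
  (.E 0 2 3 7 0 (.G 0 2 1 3 4 7)
  (.E 0 2 3 7 1 (.G 0 2 1 3 4 7)
  (.X (.G 0 2 1 3 6 7))))))))),
    (3, (.X (.G 0 1 3 4 5 6))),
    (4, (.E 0 1 2 3 1 (.G 0 1 2 3 4 6)
  (.E 0 1 2 3 2 (.G 0 1 2 3 4 6)
  (.E 0 2 3 6 0 (.G 0 3 1 2 4 6)
  (.E 0 2 3 6 1 (.G 0 3 1 2 4 6)
  (.X (.G 0 3 1 2 6 7))))))),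
    (5, (.E 0 1 2 3 2 (.G 0 1 2 3 4 7)
  (.X (.G 0 1 2 3 6 7)))),
    (7, (.E 0 1 2 4 2 (.G 0 1 2 3 4 6)
  (.X (.G 0 1 2 4 5 6)))),
    (8, (.E 0 1 2 4 2 (.G 0 1 2 3 4 7)
  (.X (.G 0 1 2 4 5 7)))),
    (9, (.E 0 1 2 5 0 (.G 0 1 2 3 5 6)
  (.X (.G 0 1 2 5 6 7)))),
    (10, (.E 0 1 2 5 0 (.G 0 1 2 3 5 7)
  (.E 0 1 2 5 1 (.G 0 1 2 3 5 7)
  (.E 0 2 5 7 1 (.G 0 5 1 2 4 7)
  (.E 0 2 5 7 2 (.G 0 5 1 2 4 7)
  (.X (.G 0 5 1 2 6 7))))))),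
    (12, (.X (.L 0 1 2 4 7))),
    (13, (.E 0 2 3 6 1 (.G 0 6 1 2 3 7)
  (.E 0 2 3 6 2 (.G 0 6 1 2 3 7)
  (.X (.G 2 6 0 1 3 7))))),
    (14, (.X (.G 0 4 1 3 5 6))),
    (15, (.X (.G 3 4 0 1 5 6))),
    (16, (.X (.G 0 3 1 4 6 7))),
    (17, (.X (.G 3 6 0 1 4 7))),
    (18, (.X (.G 0 4 1 5 6 7))),
    (19, (.X (.L 0 1 4 5 7))),
    (20, (.E 0 2 4 6 0 (.G 0 4 1 2 6 7)
  (.E 0 2 4 6 1 (.G 0 4 1 2 6 7)
  (.X (.G 0 6 1 2 4 7))))),
    (21, (.E 0 3 5 6 0 (.G 0 6 1 3 5 7)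
  (.E 0 3 5 6 1 (.G 0 6 1 3 5 7)
  (.X (.G 5 6 0 1 3 7))))),
    (23, (.X (.G 1 2 3 4 5 6))),
    (24, (.E 0 1 2 3 2 (.G 1 2 0 3 4 6)
  (.X (.G 1 3 0 2 5 6)))),
    (26, (.E 0 1 2 4 2 (.G 1 2 0 3 4 6)
  (.X (.G 1 2 0 4 5 6)))),
    (27, (.E 0 1 2 4 0 (.G 1 2 0 4 5 7)
  (.X (.G 1 4 0 2 5 7)))),
    (29, (.E 0 1 2 5 0 (.G 1 2 0 4 5 7)
  (.X (.G 1 2 0 5 6 7)))),
    (31, (.X (.G 1 3 0 4 5 6))),
    (32, (.X (.G 3 4 0 1 6 7))),
    (33, (.X (.G 1 3 0 4 6 7))),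
    (34, (.E 0 3 5 6 0 (.G 3 5 0 1 2 6)
  (.E 0 3 5 6 1 (.G 3 5 0 1 2 6)
  (.X (.G 3 5 0 1 4 6))))),
    (35, (.X (.G 1 6 0 2 3 7))),
    (36, (.X (.G 1 4 0 5 6 7))),
    (37, (.X (.G 4 5 0 1 3 7))),
    (38, (.X (.G 1 6 0 2 4 7))),
    (39, (.X (.G 1 6 0 2 5 7))),
    (40, (.X (.G 2 3 1 4 5 6))),
    (41, (.E 0 2 3 4 2 (.G 3 4 0 1 2 6)
  (.X (.G 3 4 0 2 5 6)))),
    (42, (.E 0 2 3 4 2 (.G 2 4 0 1 3 7)
  (.X (.G 2 4 0 3 6 7)))),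
    (44, (.E 0 2 3 6 2 (.G 2 6 0 1 3 7)
  (.X (.G 2 6 0 3 4 7)))),
    (45, (.X (.G 2 5 1 3 4 6))),
    (46, (.E 0 2 4 6 0 (.G 2 4 0 1 6 7)
  (.X (.G 4 6 0 2 3 7)))),
    (47, (.E 0 2 5 6 2 (.G 2 6 0 1 5 7)
  (.X (.G 2 6 0 3 5 7)))),
    (49, (.X (.G 3 4 0 5 6 7))),
    (51, (.E 0 3 5 6 0 (.G 3 6 0 1 5 7)
  (.X (.G 3 6 0 4 5 7)))),
    (52, (.X (.G 4 6 0 3 5 7)))]

/-- The initial facts for the wall `j`. -/
def F0 (j : ℕ) : List ℕ :=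
  match RL[j]? with
  | none => []
  | some t => key t.1 t.2.1 t.2.2.1 t.2.2.2.1 0 :: key t.1 t.2.1 t.2.2.1 t.2.2.2.1 2 ::
      st (RL.eraseIdx j)

/-- Two brackets, at least one of which is not the wall. -/
def L2 : List (ℕ × ℕ × ℕ × ℕ) := [(4, 5, 6, 7), (0, 1, 2, 6)]

theorem CT_ok : ∀ p ∈ CT, chk false L2 [] (F0 p.1) p.2 = true := by decide +kernel

theorem CT_all : ∀ j < 53, j ∉ lk2 → ∃ t, (j, t) ∈ CT := by
  intro j hj hn
  have : ∀ j < 53, j ∉ lk2 → j ∈ CT.map Prod.fst := by decide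
  obtain ⟨p, hp, rfl⟩ := List.mem_map.1 (this j hj hn)
  exact ⟨p.2, hp⟩

/-- The eight points and a zero vector. -/
theorem pt_ge (x : Fin 8 → E3) {k : ℕ} (h : 8 ≤ k) : pt x k = 0 := by
  have : ¬ k < 8 := by omega
  simp [pt, this]

theorem pt_coord (x : Fin 8 → E3) : ∀ i, i ≤ 8 → pt x i 0 = if fin i then 1 else 0 := by
  intro i hi
  by_cases h8 : i = 8
  · subst h8; simp [pt_ge x (le_refl 8), fin]
  · have hk : i < 8 := by omega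
    have hpt : pt x i = hom x ⟨i, hk⟩ := by simp [pt, hk]
    rw [hpt]
    by_cases e0 : i = 0
    · subst e0; simp [hom, fin]
    · by_cases e7 : i = 7
      · subst e7; simp [hom, fin]
      · have g0 : (⟨i, hk⟩ : Fin 8) ≠ 0 := by
          intro h; exact e0 (by simpa using congrArg Fin.val h)
        have g7 : (⟨i, hk⟩ : Fin 8) ≠ 7 := by
          intro h; exact e7 (by simpa using congrArg Fin.val h)
        have h1 : 1 ≤ i := by omega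
        have h6 : i ≤ 6 := by omega
        simp [hom, g0, g7, fin, h1, h6]

/-- The hypotheses of the checker hold without any condition on the links. -/
theorem hyp_pt (x : Fin 8 → E3) : Hyp false (Br (pt x)) := by
  refine ⟨br_alt _, fun a b c d e f => det4_gp _ _ _ _ _ _, ?_, ?_, ?_⟩
  · intro a b c d e ha hb hc hd he
    exact br_lin (pt_coord x) a b c d e ha hb hc hd he
  · intro h; exact absurd h (by simp)
  · intro _ k l _ hp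
    have : ∀ a b c, Br (pt x) a b c 8 = 0 := by
      intro a b c
      simp only [Br, pt_ge x (le_refl 8), det4, Pi.zero_apply]
      ring
    exact hp.2.2 ⟨this _ _ _, this _ _ _, this _ _ _, this _ _ _⟩

/-- The table of squad LKU and the list `RL`. -/
theorem F2_eq (x : Fin 8 → E3) : ∀ i, i < 53 → ∃ t, RL[i]? = some t ∧
    F2 i x = sg t.2.2.2.2 * Br (pt x) t.1 t.2.1 t.2.2.1 t.2.2.2.1 := by
  intro i hi
  have e : ∀ (a b c d : Fin 8), D x a b c d = Br (pt x) a b c d := by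
    intro a b c d
    simp only [D, Br, d4_det4, pt, a.2, b.2, c.2, d.2, dite_true, Fin.eta]
  interval_cases i <;>
    exact ⟨_, rfl, by simp only [F2, tb2, e, sg]; norm_num⟩

theorem wnb : WnbStmt := by
  intro x j hj hn hpos hz
  obtain ⟨t, ht⟩ := CT_all j hj hn
  have hck := CT_ok _ ht
  have hlen : RL.length = 53 := by decide
  obtain ⟨r, hr, hFr⟩ := F2_eq x j hj
  have hr0 : Br (pt x) r.1 r.2.1 r.2.2.1 r.2.2.2.1 = 0 := by
    rw [hz] at hFr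
    have hs : sg r.2.2.2.2 ≠ 0 := by unfold sg; split_ifs <;> norm_num
    rcases mul_eq_zero.1 hFr.symm with h | h
    · exact absurd h hs
    · exact h
  have hothers : ∀ u ∈ RL.eraseIdx j, 0 < sg u.2.2.2.2 * Br (pt x) u.1 u.2.1 u.2.2.1 u.2.2.2.1 := by
    intro u hu
    obtain ⟨i, hij, hiu⟩ := List.mem_eraseIdx_iff_getElem?.1 hu
    have hi : i < 53 := by
      have := (List.getElem?_eq_some_iff.1 hiu).1
      omega
    obtain ⟨w, hw, hFw⟩ := F2_eq x i hi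
    rw [hiu] at hw
    obtain rfl := Option.some.inj hw
    rw [← hFw]
    exact hpos i hi hij
  have hF : Facts (Br (pt x)) (F0 j) := by
    have h0 : F0 j = key r.1 r.2.1 r.2.2.1 r.2.2.2.1 0 :: key r.1 r.2.1 r.2.2.1 r.2.2.2.1 2 ::
        st (RL.eraseIdx j) := by
      unfold F0; rw [hr]
    rw [h0]
    exact ((st_facts hothers).cons (Or.inr (Or.inr ⟨rfl, hr0.le⟩))).cons (Or.inl ⟨rfl, hr0.ge⟩)
  rcases chk_of (hyp_pt x) t hF hck with h | ⟨h, _⟩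
  · by_cases hj52 : j = 52
    · have h1 := h (0, 1, 2, 6) (by simp [L2])
      obtain ⟨w, hw, hFw⟩ := F2_eq x 0 (by norm_num)
      have hw' : w = (0, 1, 2, 6, false) := by
        have := hw.symm.trans (show RL[0]? = some (0, 1, 2, 6, false) from rfl)
        exact Option.some.inj this
      subst hw'
      have := hpos 0 (by norm_num) (by omega)
      rw [hFw] at this
      simp only at h1 this
      rw [h1, mul_zero] at this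
      exact lt_irrefl _ this
    · have h1 := h (4, 5, 6, 7) (by simp [L2])
      obtain ⟨w, hw, hFw⟩ := F2_eq x 52 (by norm_num)
      have hw' : w = (4, 5, 6, 7, false) := by
        have := hw.symm.trans (show RL[52]? = some (4, 5, 6, 7, false) from rfl)
        exact Option.some.inj this
      subst hw'
      have := hpos 52 (by norm_num) (fun h => hj52 h.symm)
      rw [hFw] at this
      simp only at h1 this
      rw [h1, mul_zero] at this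
      exact lt_irrefl _ this
  · exact absurd h (by simp)

end Pool.Agent.LKU.H68
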